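import Pool.Agent.Lib_helper57.MinHomeo.Defs

/-!
# One step of the construction (module STEP, helper24)
-/

set_option autoImplicit false

open Set Metric Topology

namespace Pool.Agent.MinHomeo

/-- common stability constant for a list of constraints -/
theorem step_list_stab (h : Stab_Stmt) {M : Type} [MetricSpace M] (f : M ≃ₜ M)
    (cs : List (Cstr M))
    (hc : ∀ c ∈ cs, IsCompact c.K ∧ IsOpen c.U ∧ IsClosed c.F ∧ IsClosed c.B ∧ Good f c) :
    ∃ θ : ℝ, 0 < θ ∧ ∀ c ∈ cs, ∀ g : M ≃ₜ M, (∀ x, x ∉ c.F → dist (g x) (f x) < θ) →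
      (∀ x, x ∉ c.B → dist (g.symm x) (f.symm x) < θ) → Good g c := by
  induction cs with
  | nil => exact ⟨1, one_pos, by simp⟩
  | cons c cs ih =>
    obtain ⟨θ₁, h1, h2⟩ := ih fun c' hc' => hc c' (List.mem_cons_of_mem _ hc')
    obtain ⟨hK, hU, hF, hB, hG⟩ := hc c List.mem_cons_self
    obtain ⟨θ₂, h3, h4⟩ := h M f c hK hU hF hB hG
    refine ⟨min θ₁ θ₂, lt_min h1 h3, ?_⟩
    intro c' hc' g hg1 hg2
    rcases List.mem_cons.1 hc' with rfl | hc'
    · exact h4 g (fun x hx => (hg1 x hx).trans_le (min_le_right _ _))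
        (fun x hx => (hg2 x hx).trans_le (min_le_right _ _))
    · exact h2 c' hc' g (fun x hx => (hg1 x hx).trans_le (min_le_left _ _))
        (fun x hx => (hg2 x hx).trans_le (min_le_left _ _))

/-- the new constraint holds -/
theorem step_new_good {M : Type} [MetricSpace M] (g : M ≃ₜ M) (e : M) (κ : ℝ) (hκ : 0 < κ)
    (U O W : Set M) (N : ℕ) (hWO : W ⊆ O) (hOκ : O ⊆ ball e κ)
    (hW : ∀ m, 2 ≤ m → m ≤ 2 * N → Disjoint W ((⇑g)^[m] '' W))
    (h1 : ∀ x, ∃ a ≤ N, (⇑g)^[a] x ∈ U) (h2 : ∀ x, ∃ a ≤ N, (⇑g.symm)^[a] x ∈ U) :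
    Good g ⟨(ball e (2 * κ))ᶜ, U, {x | g x ∈ W}, W, N⟩ := by
  intro x hx
  obtain ⟨a, ha, haU⟩ := h1 x
  obtain ⟨b, hb, hbU⟩ := h2 x
  by_contra hcon
  rw [not_or] at hcon
  obtain ⟨hc1, hc2⟩ := hcon
  have hj : ∃ j < a, (⇑g)^[j] x ∈ {x | g x ∈ W} := by
    by_contra hno
    push Not at hno
    exact hc1 ⟨a, ha, haU, hno⟩
  have hi : ∃ i < b, (⇑g.symm)^[i] x ∈ W := by
    by_contra hno
    push Not at hno
    exact hc2 ⟨b, hb, hbU, hno⟩
  obtain ⟨j, hja, hjW⟩ := hj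
  obtain ⟨i, hib, hiW⟩ := hi
  have hjW' : (⇑g)^[j + 1] x ∈ W := by
    rw [Function.iterate_succ_apply']
    exact hjW
  have hcomb : (⇑g)^[j + 1 + i] ((⇑g.symm)^[i] x) = (⇑g)^[j + 1] x := by
    rw [Function.iterate_add_apply]
    congr 1
    exact (Function.LeftInverse.iterate (fun y => g.apply_symm_apply y) i) x
  by_cases hm : 2 ≤ j + 1 + i
  · have hd := hW (j + 1 + i) hm (by
      have : j + 1 ≤ N := by omega
      have : i < N := by omega
      omega)
    exact Set.disjoint_left.1 hd hjW' ⟨_, hiW, hcomb⟩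
  · have hi0 : i = 0 := by omega
    rw [hi0] at hiW
    have : x ∈ ball e κ := hOκ (hWO hiW)
    exact hx (ball_subset_ball (by linarith) this)

theorem step (h : Stab_Stmt) : Step_Stmt := by
  intro M _ _ Rc e hsymm hA hB s U hU hUne
  obtain ⟨f, O, κ, cs, hf, hO, hOc, heO, hfeO, hκ, hOκ, hOκ', hc⟩ := s
  dsimp only
  -- step 1
  obtain ⟨θ₀, hθ₀, hstab₀⟩ := step_list_stab h f cs fun c hcc =>
    ⟨(hc c hcc).1, (hc c hcc).2.1, (hc c hcc).2.2.1, (hc c hcc).2.2.2.1, (hc c hcc).2.2.2.2.1⟩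
  obtain ⟨ρ, hρ, hρO⟩ := Metric.isOpen_iff.1 hO (f e) hfeO
  obtain ⟨g, hg, N, hg1, hg2, hg3, hg4⟩ := hA f hf U hU hUne (min κ (min θ₀ ρ))
    (lt_min hκ (lt_min hθ₀ hρ))
  have hg1κ : ∀ x, dist (g x) (f x) < κ := fun x => (hg1 x).trans_le (min_le_left _ _)
  have hg2κ : ∀ x, dist (g.symm x) (f.symm x) < κ := fun x => (hg2 x).trans_le (min_le_left _ _)
  have hgood : ∀ c ∈ cs, Good g c := fun c hcc => hstab₀ c hcc g
    (fun x _ => (hg1 x).trans_le ((min_le_right _ _).trans (min_le_left _ _)))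
    (fun x _ => (hg2 x).trans_le ((min_le_right _ _).trans (min_le_left _ _)))
  have hgeO : g e ∈ O := hρO (by
    rw [mem_ball]
    exact (hg1 e).trans_le ((min_le_right _ _).trans (min_le_right _ _)))
  have hgO : ∀ x, g x ∈ O → x ∈ ball e (2 * κ) := by
    intro x hx
    have h1 : f.symm (g x) ∈ ball e κ := hOκ' _ (by rw [f.apply_symm_apply]; exact hx)
    have h2 := hg2κ (g x)
    rw [g.symm_apply_apply] at h2
    rw [mem_ball] at h1 ⊢
    calc dist x e ≤ dist x (f.symm (g x)) + dist (f.symm (g x)) e := dist_triangle _ _ _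
      _ < κ + κ := add_lt_add h2 h1
      _ = 2 * κ := by ring
  -- step 2
  obtain ⟨-, -, W, V, -, hWc, hWO, hVo, hVp, hVW, heV, hgeV, hWd, -⟩ :=
    hB g hg O hO hOc heO hgeO (2 * N) 1 1 one_pos one_pos
  have hgood' := step_new_good g e κ hκ U O W N hWO hOκ hWd hg3 hg4
  have hFo : IsOpen {x | g x ∈ V} := hVo.preimage g.continuous
  obtain ⟨r₁, hr₁, hr₁V⟩ := Metric.isOpen_iff.1 hVo e heV
  obtain ⟨r₂, hr₂, hr₂V⟩ := Metric.isOpen_iff.1 hFo e hgeV
  obtain ⟨κ₂, hκ₂, hκ₂κ, hκ₂1, hκ₂2⟩ : ∃ κ₂ : ℝ, 0 < κ₂ ∧ κ₂ ≤ κ / 2 ∧ 2 * κ₂ ≤ r₁ ∧ 2 * κ₂ ≤ r₂ := by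
    refine ⟨min (κ / 2) (min (r₁ / 2) (r₂ / 2)), ?_, min_le_left _ _, ?_, ?_⟩
    · positivity
    · have := (min_le_right (κ / 2) (min (r₁ / 2) (r₂ / 2))).trans (min_le_left _ _)
      linarith
    · have := (min_le_right (κ / 2) (min (r₁ / 2) (r₂ / 2))).trans (min_le_right _ _)
      linarith
  set c₀ : Cstr M := ⟨(ball e (2 * κ))ᶜ, U, {x | g x ∈ W}, W, N⟩ with hc₀
  have hc₀' : IsCompact c₀.K ∧ IsOpen c₀.U ∧ IsClosed c₀.F ∧ IsClosed c₀.B ∧ Good g c₀ :=
    ⟨(isOpen_ball.isClosed_compl).isCompact, hU, hWc.preimage g.continuous, hWc, hgood'⟩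
  obtain ⟨θ, hθ, hstab⟩ := step_list_stab h g (c₀ :: cs) (by
    intro c hcc
    rcases List.mem_cons.1 hcc with rfl | hcc
    · exact hc₀'
    · exact ⟨(hc c hcc).1, (hc c hcc).2.1, (hc c hcc).2.2.1, (hc c hcc).2.2.2.1, hgood c hcc⟩)
  obtain ⟨ε, hε, hεκ, hεθ⟩ : ∃ ε : ℝ, 0 < ε ∧ ε ≤ κ ∧ ε + ε ≤ θ :=
    ⟨min κ (θ / 2), by positivity, min_le_left _ _, by
      have := min_le_right κ (θ / 2)
      linarith⟩
  -- step 3
  obtain ⟨f₁, hf₁, W₁, V₁, O₁, hW₁c, hW₁V, -, -, -, -, -, -, b2, b2', b3, b3', hO₁o, hO₁p, heO₁,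
    hf₁O₁, hO₁W₁, hO₁κ⟩ := hB g hg V hVo hVp heV hgeV 0 ε κ₂ hε hκ₂
  -- step 4
  have hPo : IsOpen {x | f₁ x ∈ O₁} := hO₁o.preimage f₁.continuous
  have hPp : IsPreconnected {x | f₁ x ∈ O₁} := by
    have : {x | f₁ x ∈ O₁} = f₁.symm '' O₁ := by
      ext x
      constructor
      · intro hx
        exact ⟨f₁ x, hx, f₁.symm_apply_apply x⟩
      · rintro ⟨y, hy, rfl⟩
        simpa using hy
    rw [this]
    exact hO₁p.image _ f₁.symm.continuous.continuousOn
  obtain ⟨q, hq, W₂, V₂, O₂', hW₂c, hW₂P, -, -, -, -, -, -, d2, d2', d3, d3', hO₂o, hO₂p, heO₂,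
    hqO₂, hO₂W₂, hO₂κ⟩ := hB f₁.symm (hsymm f₁ hf₁) {x | f₁ x ∈ O₁} hPo hPp hf₁O₁
      (by simpa using heO₁) 0 ε κ₂ hε hκ₂
  have hO₂ : ∀ x, q x ∈ O₂' → x ∈ O₁ := by
    intro x hx
    have h1 := d3' _ (hO₂W₂ hx)
    rw [q.symm_apply_apply] at h1
    have h2 := hW₂P h1
    simpa using h2
  -- comparison with g
  have hW₁W : W₁ ⊆ W := hW₁V.trans hVW
  have hW₁O : W₁ ⊆ O := hW₁W.trans hWO
  have key1 : ∀ x, g x ∉ W₁ → dist (q.symm x) (g x) < ε + ε := by
    intro x hx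
    have hxW₂ : x ∉ W₂ := by
      intro hx2
      have h1 : f₁ x ∈ O₁ := hW₂P hx2
      have h2 := b3' _ (hO₁W₁ h1)
      rw [f₁.symm_apply_apply] at h2
      exact hx h2
    have h1 := d3 x hxW₂
    rw [Homeomorph.symm_symm] at h1
    calc dist (q.symm x) (g x) ≤ dist (q.symm x) (f₁ x) + dist (f₁ x) (g x) := dist_triangle _ _ _
      _ < ε + ε := add_lt_add h1 (b2 x hx)
  have key2 : ∀ x, x ∉ W₁ → dist (q x) (g.symm x) < ε + ε := by
    intro x hx
    have hxW₂ : f₁.symm x ∉ W₂ := by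
      intro hx2
      have h1 : f₁ (f₁.symm x) ∈ O₁ := hW₂P hx2
      rw [f₁.apply_symm_apply] at h1
      exact hx (hO₁W₁ h1)
    calc dist (q x) (g.symm x) ≤ dist (q x) (f₁.symm x) + dist (f₁.symm x) (g.symm x) :=
          dist_triangle _ _ _
      _ < ε + ε := add_lt_add (d2 x hxW₂) (b3 x hx)
  have hgood₂ : ∀ c ∈ c₀ :: cs, Good q.symm c := by
    intro c hcc
    refine hstab c hcc q.symm ?_ ?_
    · intro x hx
      refine (key1 x fun hxW => hx ?_).trans_le hεθ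
      rcases List.mem_cons.1 hcc with rfl | hcc
      · exact hW₁W hxW
      · exact (hc c hcc).2.2.2.2.2.1 (hgO x (hW₁O hxW))
    · intro x hx
      rw [Homeomorph.symm_symm]
      refine (key2 x fun hxW => hx ?_).trans_le hεθ
      rcases List.mem_cons.1 hcc with rfl | hcc
      · exact hW₁W hxW
      · exact (hc c hcc).2.2.2.2.2.2 (ball_subset_ball (by linarith) (hOκ (hW₁O hxW)))
  refine ⟨⟨q.symm, {x | q x ∈ O₂'}, κ₂, c₀ :: cs, hsymm q hq, hO₂o.preimage q.continuous, ?_, hqO₂,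
    ?_, hκ₂, ?_, ?_, ?_⟩, c₀, rfl, rfl, rfl, hκ₂κ, ?_, ?_⟩
  · have : {x | q x ∈ O₂'} = q.symm '' O₂' := by
      ext x
      constructor
      · intro hx
        exact ⟨q x, hx, q.symm_apply_apply x⟩
      · rintro ⟨y, hy, rfl⟩
        simpa using hy
    rw [this]
    exact hO₂p.image _ q.symm.continuous.continuousOn
  · simpa using heO₂
  · intro x hx
    exact hO₁κ (hO₂ x hx)
  · intro x hx
    have : x ∈ O₂' := by simpa using hx
    exact hO₂κ this
  · intro c hcc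
    have hG := hgood₂ c hcc
    rcases List.mem_cons.1 hcc with rfl | hcc
    · refine ⟨hc₀'.1, hc₀'.2.1, hc₀'.2.2.1, hc₀'.2.2.2.1, hG, ?_, ?_⟩
      · intro x hx
        exact hVW (hr₂V (ball_subset_ball hκ₂2 hx))
      · intro x hx
        exact hVW (hr₁V (ball_subset_ball hκ₂1 hx))
    · obtain ⟨a1, a2, a3, a4, -, a6, a7⟩ := hc c hcc
      refine ⟨a1, a2, a3, a4, hG, ?_, ?_⟩
      · exact (ball_subset_ball (by linarith)).trans a6
      · exact (ball_subset_ball (by linarith)).trans a7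
  · intro x
    by_cases hx : g x ∈ W₁
    · have h1 : dist (q.symm x) e < κ + ε := by
        by_cases hx2 : x ∈ W₂
        · have h2 : f₁ (f₁.symm (q.symm x)) ∈ O₁ := hW₂P (d3' x hx2)
          rw [f₁.apply_symm_apply] at h2
          have h3 := hO₁κ h2
          rw [mem_ball] at h3
          linarith
        · have h2 := d3 x hx2
          rw [Homeomorph.symm_symm] at h2
          have h3 := hOκ (hW₁O (b2' x hx))
          rw [mem_ball] at h3
          calc dist (q.symm x) e ≤ dist (q.symm x) (f₁ x) + dist (f₁ x) e := dist_triangle _ _ _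
            _ < κ + ε := by linarith
      have h4 := hOκ (hW₁O hx)
      rw [mem_ball] at h4
      calc dist (q.symm x) (f x) ≤ dist (q.symm x) e + dist e (g x) + dist (g x) (f x) :=
            dist_triangle4 _ _ _ _
        _ ≤ 6 * κ := by
            rw [dist_comm e (g x)]
            have := hg1κ x
            linarith
    · calc dist (q.symm x) (f x) ≤ dist (q.symm x) (g x) + dist (g x) (f x) := dist_triangle _ _ _
        _ ≤ 6 * κ := by
            have := hg1κ x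
            have := key1 x hx
            linarith
  · intro x
    rw [Homeomorph.symm_symm]
    by_cases hx : x ∈ W₁
    · have h1 : dist (q x) e < 2 * κ + ε := by
        by_cases hx2 : f₁.symm x ∈ W₂
        · have h2 : f₁ (q x) ∈ O₁ := hW₂P (d2' x hx2)
          have h3 := b3' _ (hO₁W₁ h2)
          rw [f₁.symm_apply_apply] at h3
          have h4 := hgO _ (hW₁O h3)
          rw [mem_ball] at h4
          linarith
        · have h2 := d2 x hx2
          have h3 := hgO _ (hW₁O (b3' x hx))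
          rw [mem_ball] at h3
          calc dist (q x) e ≤ dist (q x) (f₁.symm x) + dist (f₁.symm x) e := dist_triangle _ _ _
            _ < 2 * κ + ε := by linarith
      have h4 : g.symm x ∈ ball e (2 * κ) := hgO _ (by
        rw [g.apply_symm_apply]
        exact hW₁O hx)
      rw [mem_ball] at h4
      calc dist (q x) (f.symm x) ≤ dist (q x) e + dist e (g.symm x) + dist (g.symm x) (f.symm x) :=
            dist_triangle4 _ _ _ _
        _ ≤ 6 * κ := by
            rw [dist_comm e (g.symm x)]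
            have := hg2κ x
            linarith
    · calc dist (q x) (f.symm x) ≤ dist (q x) (g.symm x) + dist (g.symm x) (f.symm x) :=
            dist_triangle _ _ _
        _ ≤ 6 * κ := by
            have := hg2κ x
            have := key2 x hx
            linarith

end Pool.Agent.MinHomeo
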